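import Pool.Agent.Helper92.Tor.Final

set_option autoImplicit false

/-!
# Weak abundance and torus actions
-/

namespace Pool.Agent.Results.MP_2c56d9_ag.TorusAction

open Pool.Agent.Helper92.Weak

/-- Let `X` be a normal projective variety with an action of an `r`-dimensional torus: the function
field of `X` is `L = K(t₁, ..., t_r)` and the automorphisms `t_i ↦ c_i t_i` of `L` over `K` act on
`X`.  Let `Z` be a normal projective variety with function field `K` such that every prime divisor
of `X` maps onto `Z` or onto a prime divisor of `Z` (the rational map `X ⇢ Z` need not be a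
morphism, and `Z` need not be `ℚ`-factorial; one may take for `Z` a suitable resolution of the
quotient).  Let `Δ` be any effective `ℚ`-divisor (not necessarily invariant) with `(X, Δ)` log
canonical, and let `ΔZ ≥ 0` be a divisor on `Z` with `e ΔZ(Q) ≤ Δ(P) + e - 1` for all `P` over `Q`
with multiplicity `e` (for instance `ΔZ = 0`), such that `κ(Z, K_Z + ΔZ) ≥ 0`.  Then either the
Kodaira and the numerical dimension of `K_X + Δ` are both `-∞`, or there are `s ∈ {0, ..., r}` and
an effective divisor `B` on `Z` such that for all `ε > 0` the Kodaira and the numerical dimension of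
`K_X + Δ` are those of `K_Z + ΔZ + ε B`, plus `s`.  Moreover if `Z` is smooth and `ℚ`-factorial and
`(Z, ΔZ)` is klt, then `(Z, ΔZ + ε B)` is klt for all small `ε > 0`. -/
theorem result {k K L : Type*} [Field k] [IsAlgClosed k] [CharZero k] [Field K] [Field L]
    [Algebra k K] [Algebra k L] [Algebra K L] [IsScalarTower k K L]
    {d r : ℕ} (hd : Algebra.trdeg k K = d) (t : Fin r → L) (Z : ProjVar k K) (X : ProjVar k L)
    (h : IsTorusVariety t X Z) (p : X.Pair (d + r)) (hlc : p.LC)
    (q : Z.Pair d) (hq : IsOrbifoldBase p q) (hκ : Z.kod q.logDiv ≠ ⊥) :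
    (X.kod p.logDiv = ⊥ ∧ X.nu p.logDiv = ⊥) ∨
    ∃ (s : ℕ) (B : Z.Div), s ≤ r ∧ (∀ Q, 0 ≤ B Q) ∧
      (∀ ε : ℚ, 0 < ε → X.kod p.logDiv = s + Z.kod (q.logDiv + ε • B) ∧
        X.nu p.logDiv = s + Z.nu (q.logDiv + ε • B)) ∧
      (Z.IsSmooth d → Z.IsQFactorial → Z.IsKlt q.ω q.can q.Δ →
        ∃ ε₀ : ℚ, 0 < ε₀ ∧ ∀ ε, 0 < ε → ε ≤ ε₀ → Z.IsKlt q.ω q.can (q.Δ + ε • B)) :=
  Pool.Agent.Helper92.Tor.torus_variety_pair hd Z X h p hlc q hq hκ

end Pool.Agent.Results.MP_2c56d9_ag.TorusAction
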